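import Pool.Agent.TH965.Mu.Rep

/-!
# Even representations over totally real fields: trivial coefficients and Sylow fixed fields suffice

Let `p` be an odd prime number, `K` a totally real number field and `T` a representation of `G_K` on
a free `ℛ`-module such that `K(T/π)` is totally real. Let `M` be the dual of `T/π`. The module
`H²_Iw(𝒪_{K,S}, T)` is torsion with `μ = 0` if and only if `H¹(Gal(ℚ_S/K^cyc), M)` is finite
(Nakayama's lemma, duality, and the Euler characteristic, which is `0` since `M` is even). This
file shows: this holds for all such `K` and `T` if and only if it holds for `T = ℤ_p` and the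
totally real fields `K` of degree prime to `p` that contain a given totally real field `F₀` of
degree prime to `p` and have a Galois closure of `p`-power degree over `K`.

Proof. Over a totally real field `E` over which `M` is trivial, the crossed homomorphisms are
homomorphisms, and there are only finitely many for each restriction. This reduces the question to
trivial coefficients over `E`. Let `L` be the Galois closure of `E F₀` and `K'` the fixed field in
`L` of a Sylow `p`-subgroup of `Gal(L / F₀)`. Finiteness passes from `K'` to `L` (Iwasawa's theorem
on `p`-extensions, proved here for groups) and from `L` to `E`.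
-/

set_option autoImplicit false

open NumberField IntermediateField Pool.Agent.TH965.Mu

namespace Pool.Agent.Results.MP_519cc8_nt.EvenRepresentations

/-- For a totally real number field `F₀` of degree prime to `p`: `H¹(Gal(ℚ_S/K^cyc), M)` is finite
for all totally real number fields `K` and all representations `M` of `Gal(Ω/K)` modulo `p` that
become trivial over a totally real number field if and only if this holds for `M = 𝔽_p` (with the
trivial action) and those totally real `K` that contain `F₀`, have degree prime to `p` and a Galois
closure of `p`-power degree over `K`. -/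
theorem result (p : ℕ) [Fact p.Prime] (F₀ : IntermediateField ℚ Ω) (hF : TotReal F₀)
    (h0 : ¬ p ∣ deg F₀) :
    (∀ (K : IntermediateField ℚ Ω) (d : ℕ) (ρ : Gal K →* Matrix (Fin d) (Fin d) (ZMod p)),
      TotReal K → FiniteH1 ρ) ↔
    ∀ K, Reduced p F₀ K → FiniteH1 (1 : Gal K →* Matrix (Fin 1) (Fin 1) (ZMod p)) := by
  refine ⟨fun h K hK => h K 1 1 hK.1, fun h K d ρ _ S E hS hpS hE hKE hES hρ => ?_⟩
  obtain ⟨hE1, hE2⟩ := hE
  obtain ⟨hF1, hF2⟩ := hF
  obtain ⟨K', hK1, hK2, hK3, _, hK5, hK6, hK7⟩ := main p F₀ E h0
  have hred : Reduced p F₀ K' := ⟨⟨hK1, hK2⟩, hK3, hK5, hK6⟩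
  exact finiteCocycles ρ S hE1 hKE hρ (hK7 (muZero_of_finiteH1 hred.1 (h K' hred)) S hS hpS hES)

end Pool.Agent.Results.MP_519cc8_nt.EvenRepresentations
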